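import Pool.Agent.TH5.BD.Para

set_option autoImplicit false

open CoxeterSystem Pool.Agent.Helper703.Cox Pool.Agent.TH5.BD

namespace Pool.Agent.L7h63.CoxExt

section roots

variable {B : Type*} {M : CoxeterMatrix B} [Fintype B] [DecidableEq B]
variable {W : Type*} [Group W] (cs : CoxeterSystem M W)

lemma geo_refl (w : W) (x : B) (v : B → ℝ) :
    geo cs (w * cs.simple x * w⁻¹) v = v - bf M (geo cs w (ee x)) v • geo cs w (ee x) := by
  have h1 : bf M (geo cs w (ee x)) v = bf M (ee x) (geo cs w⁻¹ v) := by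
    conv_lhs => rw [← geo_apply_inv cs w v]
    rw [bf_geo]
  rw [map_mul, map_mul, Module.End.mul_apply, Module.End.mul_apply, geo_simple, sg_apply, map_sub,
    geo_apply_inv, map_smul, h1, bf_ee]

lemma refl_root {w w' : W} {x y : B}
    (h : w * cs.simple x * w⁻¹ = w' * cs.simple y * w'⁻¹) :
    geo cs w (ee x) = geo cs w' (ee y) ∨ geo cs w (ee x) = - geo cs w' (ee y) := by
  have e : ∀ v, bf M (geo cs w (ee x)) v • geo cs w (ee x) =
      bf M (geo cs w' (ee y)) v • geo cs w' (ee y) := by
    intro v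
    have h1 := geo_refl cs w x v
    rw [h, geo_refl] at h1
    exact (sub_right_injective h1).symm
  generalize hβ : geo cs w (ee x) = β at *
  generalize hβ' : geo cs w' (ee y) = β' at *
  have n1 : bf M β β = 2 := by rw [← hβ, bf_geo, bf_ee_self]
  have n2 : bf M β' β' = 2 := by rw [← hβ', bf_geo, bf_ee_self]
  have h2 := e β
  rw [n1] at h2
  have h3 : ∃ c : ℝ, β = c • β' := by
    refine ⟨2⁻¹ * bf M β' β, ?_⟩
    calc β = (2⁻¹ : ℝ) • ((2 : ℝ) • β) := by rw [smul_smul]; norm_num
      _ = (2⁻¹ : ℝ) • (bf M β' β • β') := by rw [h2]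
      _ = (2⁻¹ * bf M β' β) • β' := by rw [smul_smul]
  obtain ⟨c, h3⟩ := h3
  have h4 : c ^ 2 = 1 := by
    have := n1
    rw [h3, map_smul, LinearMap.map_smul, LinearMap.smul_apply, n2] at this
    simp only [smul_eq_mul] at this
    nlinarith
  have h4' : (c - 1) * (c + 1) = 0 := by nlinarith
  rcases mul_eq_zero.mp h4' with h5 | h5
  · left
    have h6 : c = 1 := by linarith
    rw [h3, h6, one_smul]
  · right
    have h6 : c = -1 := by linarith
    rw [h3, h6]; module

lemma root_refl {w w' : W} {x y : B} (h : geo cs w (ee x) = geo cs w' (ee y)) :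
    w * cs.simple x * w⁻¹ = w' * cs.simple y * w'⁻¹ := by
  apply geo_injective cs
  refine LinearMap.ext fun v => ?_
  rw [geo_refl, geo_refl, h]

/-- roots of a rank two parabolic subgroup -/
lemma par_root {i j : B} (hij : i ≠ j) {u : W} (hu : u ∈ Par cs {i, j}) {s : B}
    (hs : s = i ∨ s = j) : ∃ p q : ℝ, geo cs u (ee s) = p • ee i + q • ee j ∧
      ((0 ≤ p ∧ 0 ≤ q) ∨ (p ≤ 0 ∧ q ≤ 0)) := by
  refine ⟨geo cs u (ee s) i, geo cs u (ee s) j, ?_, ?_⟩
  · funext k
    by_cases hki : k = i
    · subst hki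
      simp [ee, hij.symm, hij]
    · by_cases hkj : k = j
      · subst hkj
        simp [ee, hij.symm, hij]
      · rw [par_geo hu (ee s) k (by simp [hki, hkj])]
        have : k ≠ s := by rcases hs with rfl | rfl <;> assumption
        simp [ee, hki, hkj, this]
  · rcases (IsRoot.geo (isRoot_ee (cs := cs) s) u).sign with h | h
    · exact Or.inl ⟨h i, h j⟩
    · exact Or.inr ⟨h i, h j⟩

/-- coordinates of a positive root that belongs to a reflection of `h W_{ij} h⁻¹` -/
lemma pos_coords {i j : B} (hij : i ≠ j) {h : W} (hi : cs.length h < cs.length (h * cs.simple i))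
    (hj : cs.length h < cs.length (h * cs.simple j)) {u : W} (hu : u ∈ Par cs {i, j}) {s : B}
    (hs : s = i ∨ s = j) {h' : W} {a : B}
    (ha : cs.length h' < cs.length (h' * cs.simple a))
    (e : (h * u) * cs.simple s * (h * u)⁻¹ = h' * cs.simple a * h'⁻¹) :
    ∃ p q : ℝ, 0 ≤ p ∧ 0 ≤ q ∧ geo cs h' (ee a) = p • geo cs h (ee i) + q • geo cs h (ee j) := by
  obtain ⟨p, q, hpq, hsign⟩ := par_root cs hij hu hs
  have Ei := geo_nonneg cs h i hi
  have Ej := geo_nonneg cs h j hj
  have Ea := geo_nonneg cs h' a ha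
  have Ea0 := geo_ee_ne_zero cs h' a
  have h1 : geo cs (h * u) (ee s) = p • geo cs h (ee i) + q • geo cs h (ee j) := by
    rw [map_mul, Module.End.mul_apply, hpq, map_add, map_smul, map_smul]
  rcases refl_root cs e with h2 | h2
  · rcases hsign with ⟨hp, hq⟩ | ⟨hp, hq⟩
    · exact ⟨p, q, hp, hq, by rw [← h2, h1]⟩
    · exfalso
      have : geo cs h' (ee a) ≤ 0 := by
        rw [← h2, h1]
        have e1 : p • geo cs h (ee i) ≤ 0 := smul_nonpos_of_nonpos_of_nonneg hp Ei
        have e2 : q • geo cs h (ee j) ≤ 0 := smul_nonpos_of_nonpos_of_nonneg hq Ej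
        exact add_nonpos e1 e2
      exact Ea0 (le_antisymm this Ea)
  · have h2' : geo cs h' (ee a) = (-p) • geo cs h (ee i) + (-q) • geo cs h (ee j) := by
      have : geo cs h' (ee a) = - geo cs (h * u) (ee s) := by rw [h2, neg_neg]
      rw [this, h1]
      module
    rcases hsign with ⟨hp, hq⟩ | ⟨hp, hq⟩
    · exfalso
      have : geo cs h' (ee a) ≤ 0 := by
        rw [h2']
        have e1 : (-p) • geo cs h (ee i) ≤ 0 :=
          smul_nonpos_of_nonpos_of_nonneg (by linarith) Ei
        have e2 : (-q) • geo cs h (ee j) ≤ 0 :=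
          smul_nonpos_of_nonpos_of_nonneg (by linarith) Ej
        exact add_nonpos e1 e2
      exact Ea0 (le_antisymm this Ea)
    · exact ⟨-p, -q, by linarith, by linarith, h2'⟩

lemma ee_lin {i j : B} (hij : i ≠ j) {x y x' y' : ℝ}
    (h : x • (ee i : B → ℝ) + y • ee j = x' • ee i + y' • ee j) : x = x' ∧ y = y' := by
  constructor
  · have := congrFun h i
    simpa [ee, hij, hij.symm] using this
  · have := congrFun h j
    simpa [ee, hij, hij.symm] using this

lemma geo_lin (h : W) {i j : B} (hij : i ≠ j) {x y x' y' : ℝ}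
    (e : x • geo cs h (ee i) + y • geo cs h (ee j) = x' • geo cs h (ee i) + y' • geo cs h (ee j)) :
    x = x' ∧ y = y' := by
  apply ee_lin hij
  apply geo_injective_apply cs h
  rw [map_add, map_add, map_smul, map_smul, map_smul, map_smul, e]

lemma one_of_pos {h h' : W} {i a : B} {p : ℝ} (hp : 0 ≤ p)
    (e : geo cs h' (ee a) = p • geo cs h (ee i)) : geo cs h' (ee a) = geo cs h (ee i) := by
  have n1 : bf M (geo cs h' (ee a)) (geo cs h' (ee a)) = 2 := by rw [bf_geo, bf_ee_self]
  have n2 : bf M (geo cs h (ee i)) (geo cs h (ee i)) = 2 := by rw [bf_geo, bf_ee_self]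
  rw [e, map_smul, LinearMap.map_smul, LinearMap.smul_apply, n2] at n1
  simp only [smul_eq_mul] at n1
  have : p = 1 := by nlinarith
  rw [e, this, one_smul]

/-- **Uniqueness of the canonical pair.** -/
lemma canonical_unique {i j : B} (hij : i ≠ j) {h : W}
    (hi : cs.length h < cs.length (h * cs.simple i))
    (hj : cs.length h < cs.length (h * cs.simple j)) {u u' : W} (hu : u ∈ Par cs {i, j})
    (hu' : u' ∈ Par cs {i, j}) {s s' : B} (hs : s = i ∨ s = j) (hs' : s' = i ∨ s' = j)
    {h' : W} {a b : B} (hab : a ≠ b) (ha : cs.length h' < cs.length (h' * cs.simple a))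
    (hb : cs.length h' < cs.length (h' * cs.simple b))
    (e : (h * u) * cs.simple s * (h * u)⁻¹ = h' * cs.simple a * h'⁻¹)
    (e' : (h * u') * cs.simple s' * (h * u')⁻¹ = h' * cs.simple b * h'⁻¹) :
    (h' * cs.simple a * h'⁻¹ = h * cs.simple i * h⁻¹ ∧
      h' * cs.simple b * h'⁻¹ = h * cs.simple j * h⁻¹) ∨
    (h' * cs.simple a * h'⁻¹ = h * cs.simple j * h⁻¹ ∧
      h' * cs.simple b * h'⁻¹ = h * cs.simple i * h⁻¹) := by
  obtain ⟨p, q, hp, hq, h1⟩ := pos_coords cs hij hi hj hu hs ha e
  obtain ⟨p', q', hp', hq', h2⟩ := pos_coords cs hij hi hj hu' hs' hb e'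
  have Ei := geo_nonneg cs h i hi
  have Ej := geo_nonneg cs h j hj
  have Ea := geo_nonneg cs h' a ha
  have Eb := geo_nonneg cs h' b hb
  have Ei0 := geo_ee_ne_zero cs h i
  have Ej0 := geo_ee_ne_zero cs h j
  -- the determinant
  have hdet : p * q' - q * p' ≠ 0 := by
    intro hd
    have k1 : q' • geo cs h' (ee a) + (-q) • geo cs h' (ee b) =
        (0 : ℝ) • geo cs h' (ee a) + (0 : ℝ) • geo cs h' (ee b) := by
      rw [h1, h2]
      have : q' * p - q * p' = 0 := by linarith
      calc q' • (p • geo cs h (ee i) + q • geo cs h (ee j)) +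
            (-q) • (p' • geo cs h (ee i) + q' • geo cs h (ee j))
          = (q' * p - q * p') • geo cs h (ee i) := by module
        _ = 0 := by rw [this, zero_smul]
        _ = _ := by module
    have k2 : p' • geo cs h' (ee a) + (-p) • geo cs h' (ee b) =
        (0 : ℝ) • geo cs h' (ee a) + (0 : ℝ) • geo cs h' (ee b) := by
      rw [h1, h2]
      have : p' * q - p * q' = 0 := by linarith
      calc p' • (p • geo cs h (ee i) + q • geo cs h (ee j)) +
            (-p) • (p' • geo cs h (ee i) + q' • geo cs h (ee j))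
          = (p' * q - p * q') • geo cs h (ee j) := by module
        _ = 0 := by rw [this, zero_smul]
        _ = _ := by module
    obtain ⟨k3, k4⟩ := geo_lin cs h' hab k1
    obtain ⟨k5, k6⟩ := geo_lin cs h' hab k2
    have hq0 : q = 0 := by linarith
    have hp0 : p = 0 := by linarith
    apply geo_ee_ne_zero cs h' a
    rw [h1, hq0, hp0]
    module
  -- E_i and E_j in terms of the canonical roots
  have inv_i : ∃ x y : ℝ, 0 ≤ x ∧ 0 ≤ y ∧
      geo cs h (ee i) = x • geo cs h' (ee a) + y • geo cs h' (ee b) := by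
    set d := p * q' - q * p'
    have hE : geo cs h (ee i) = (q' / d) • geo cs h' (ee a) + (-q / d) • geo cs h' (ee b) := by
      rw [h1, h2]
      have e1 : q' / d * p + -q / d * p' = 1 := by
        rw [div_mul_eq_mul_div, div_mul_eq_mul_div, ← add_div]
        rw [div_eq_one_iff_eq hdet]
        simp only [d]; ring
      have e2 : q' / d * q + -q / d * q' = 0 := by
        rw [div_mul_eq_mul_div, div_mul_eq_mul_div, ← add_div]
        have : q' * q + -q * q' = 0 := by ring
        rw [this, zero_div]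
      calc geo cs h (ee i) = (1 : ℝ) • geo cs h (ee i) + (0 : ℝ) • geo cs h (ee j) := by module
        _ = (q' / d * p + -q / d * p') • geo cs h (ee i) +
            (q' / d * q + -q / d * q') • geo cs h (ee j) := by rw [e1, e2]
        _ = _ := by module
    have hr : IsRoot cs (geo cs h'⁻¹ (geo cs h (ee i))) := by
      have := (isRoot_ee (cs := cs) i).geo (h'⁻¹ * h)
      rwa [map_mul, Module.End.mul_apply] at this
    have hr2 : geo cs h'⁻¹ (geo cs h (ee i)) = (q' / d) • ee a + (-q / d) • ee b := by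
      rw [hE, map_add, map_smul, map_smul, geo_inv_apply, geo_inv_apply]
    rw [hr2] at hr
    have hcoef : (0 ≤ q' / d ∧ 0 ≤ -q / d) ∨ (q' / d ≤ 0 ∧ -q / d ≤ 0) := by
      rcases hr.sign with hs | hs
      · left
        have s1 := hs a
        have s2 := hs b
        simp [ee, hab, hab.symm] at s1 s2
        exact ⟨s1, s2⟩
      · right
        have s1 := hs a
        have s2 := hs b
        simp [ee, hab, hab.symm] at s1 s2
        exact ⟨s1, s2⟩
    rcases hcoef with ⟨s1, s2⟩ | ⟨s1, s2⟩
    · exact ⟨_, _, s1, s2, hE⟩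
    · exfalso
      apply Ei0
      refine le_antisymm ?_ Ei
      rw [hE]
      exact add_nonpos (smul_nonpos_of_nonpos_of_nonneg s1 Ea)
        (smul_nonpos_of_nonpos_of_nonneg s2 Eb)
  have inv_j : ∃ x y : ℝ, 0 ≤ x ∧ 0 ≤ y ∧
      geo cs h (ee j) = x • geo cs h' (ee a) + y • geo cs h' (ee b) := by
    set d := p * q' - q * p'
    have hE : geo cs h (ee j) = (-p' / d) • geo cs h' (ee a) + (p / d) • geo cs h' (ee b) := by
      rw [h1, h2]
      have e1 : -p' / d * q + p / d * q' = 1 := by
        rw [div_mul_eq_mul_div, div_mul_eq_mul_div, ← add_div]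
        rw [div_eq_one_iff_eq hdet]
        simp only [d]; ring
      have e2 : -p' / d * p + p / d * p' = 0 := by
        rw [div_mul_eq_mul_div, div_mul_eq_mul_div, ← add_div]
        have : -p' * p + p * p' = 0 := by ring
        rw [this, zero_div]
      calc geo cs h (ee j) = (0 : ℝ) • geo cs h (ee i) + (1 : ℝ) • geo cs h (ee j) := by module
        _ = (-p' / d * p + p / d * p') • geo cs h (ee i) +
            (-p' / d * q + p / d * q') • geo cs h (ee j) := by rw [e1, e2]
        _ = _ := by module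
    have hr : IsRoot cs (geo cs h'⁻¹ (geo cs h (ee j))) := by
      have := (isRoot_ee (cs := cs) j).geo (h'⁻¹ * h)
      rwa [map_mul, Module.End.mul_apply] at this
    have hr2 : geo cs h'⁻¹ (geo cs h (ee j)) = (-p' / d) • ee a + (p / d) • ee b := by
      rw [hE, map_add, map_smul, map_smul, geo_inv_apply, geo_inv_apply]
    rw [hr2] at hr
    have hcoef : (0 ≤ -p' / d ∧ 0 ≤ p / d) ∨ (-p' / d ≤ 0 ∧ p / d ≤ 0) := by
      rcases hr.sign with hs | hs
      · left
        have s1 := hs a
        have s2 := hs b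
        simp [ee, hab, hab.symm] at s1 s2
        exact ⟨s1, s2⟩
      · right
        have s1 := hs a
        have s2 := hs b
        simp [ee, hab, hab.symm] at s1 s2
        exact ⟨s1, s2⟩
    rcases hcoef with ⟨s1, s2⟩ | ⟨s1, s2⟩
    · exact ⟨_, _, s1, s2, hE⟩
    · exfalso
      apply Ej0
      refine le_antisymm ?_ Ej
      rw [hE]
      exact add_nonpos (smul_nonpos_of_nonpos_of_nonneg s1 Ea)
        (smul_nonpos_of_nonpos_of_nonneg s2 Eb)
  obtain ⟨x, y, hx, hy, h3⟩ := inv_i
  obtain ⟨x', y', hx', hy', h4⟩ := inv_j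
  have h5 : (1 : ℝ) • geo cs h (ee i) + (0 : ℝ) • geo cs h (ee j) =
      (x * p + y * p') • geo cs h (ee i) + (x * q + y * q') • geo cs h (ee j) := by
    calc (1 : ℝ) • geo cs h (ee i) + (0 : ℝ) • geo cs h (ee j) = geo cs h (ee i) := by module
      _ = x • geo cs h' (ee a) + y • geo cs h' (ee b) := h3
      _ = x • (p • geo cs h (ee i) + q • geo cs h (ee j)) +
          y • (p' • geo cs h (ee i) + q' • geo cs h (ee j)) := by rw [← h1, ← h2]
      _ = _ := by module
  have h6 : (0 : ℝ) • geo cs h (ee i) + (1 : ℝ) • geo cs h (ee j) =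
      (x' * p + y' * p') • geo cs h (ee i) + (x' * q + y' * q') • geo cs h (ee j) := by
    calc (0 : ℝ) • geo cs h (ee i) + (1 : ℝ) • geo cs h (ee j) = geo cs h (ee j) := by module
      _ = x' • geo cs h' (ee a) + y' • geo cs h' (ee b) := h4
      _ = x' • (p • geo cs h (ee i) + q • geo cs h (ee j)) +
          y' • (p' • geo cs h (ee i) + q' • geo cs h (ee j)) := by rw [← h1, ← h2]
      _ = _ := by module
  obtain ⟨f1, f2⟩ := geo_lin cs h hij h5
  obtain ⟨f3, f4⟩ := geo_lin cs h hij h6
  have g1 : x * q = 0 := by nlinarith [mul_nonneg hx hq, mul_nonneg hy hq']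
  have g2 : y * q' = 0 := by nlinarith [mul_nonneg hx hq, mul_nonneg hy hq']
  have g3 : x' * p = 0 := by nlinarith [mul_nonneg hx' hp, mul_nonneg hy' hp']
  have g4 : y' * p' = 0 := by nlinarith [mul_nonneg hx' hp, mul_nonneg hy' hp']
  by_cases hx0 : x = 0
  · -- second case
    have hq'0 : q' = 0 := by
      rcases mul_eq_zero.mp g2 with h | h
      · rw [hx0, h] at f1; norm_num at f1
      · exact h
    have hy'0 : y' = 0 := by
      rcases mul_eq_zero.mp g4 with h | h
      · exact h
      · rw [hx0, h] at f1; norm_num at f1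
    have hp0 : p = 0 := by
      rcases mul_eq_zero.mp g3 with h | h
      · rw [hy'0, h] at f4; norm_num at f4
      · exact h
    right
    constructor
    · apply root_refl
      apply one_of_pos cs hq
      rw [h1, hp0]; module
    · apply root_refl
      apply one_of_pos cs hp'
      rw [h2, hq'0]; module
  · have hq0 : q = 0 := by
      rcases mul_eq_zero.mp g1 with h | h
      · exact absurd h hx0
      · exact h
    have hp0 : p ≠ 0 := by
      intro h
      apply geo_ee_ne_zero cs h' a
      rw [h1, hq0, h]; module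
    have hx'0 : x' = 0 := by
      rcases mul_eq_zero.mp g3 with h | h
      · exact h
      · exact absurd h hp0
    have hp'0 : p' = 0 := by
      rcases mul_eq_zero.mp g4 with h | h
      · rw [hx'0, h] at f4; norm_num at f4
      · exact h
    left
    constructor
    · apply root_refl
      apply one_of_pos cs hp
      rw [h1, hq0]; module
    · apply root_refl
      apply one_of_pos cs hq'
      rw [h2, hp'0]; module

/-- the order of `s_i s_j` -/
lemma pow_ne_one {i j : B} (hij : i ≠ j) {k : ℕ} (h0 : 0 < k) (hk : k < M i j) :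
    (cs.simple i * cs.simple j) ^ k ≠ 1 := by
  intro h
  have hm : M i j ≠ 0 := by omega
  have h1 := prod_alt_ee (M := M) i j (2 * k)
  rw [prod_alt_eq_pow, if_pos (even_two_mul k)] at h1
  have h2 : geo cs ((cs.simple i * cs.simple j) ^ k) (ee i) = ee i := by
    rw [h, map_one, Module.End.one_apply]
  rw [map_pow, map_mul, geo_simple, geo_simple, h1] at h2
  have h3 : qs (cc M i j) (2 * k + 1) • (ee i : B → ℝ) + qs (cc M i j) (2 * k) • ee j =
      (1 : ℝ) • ee i + (0 : ℝ) • ee j := by rw [h2]; module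
  obtain ⟨h4, h5⟩ := ee_lin hij h3
  have hs := sin_pos_of_ne M hij hm
  have h6 := qs_sin (Real.pi / (M i j : ℝ)) (2 * k)
  have h7 := qs_sin (Real.pi / (M i j : ℝ)) (2 * k + 1)
  have hcc : Real.cos (Real.pi / (M i j : ℝ)) = cc M i j := rfl
  rw [hcc, h5, zero_mul] at h6
  rw [hcc, h4, one_mul] at h7
  set θ := Real.pi / (M i j : ℝ) with hθ
  have e1 : (((2 * k + 1 : ℕ)) : ℝ) * θ = ((2 * k : ℕ) : ℝ) * θ + θ := by push_cast; ring
  rw [e1, Real.sin_add, ← h6, zero_mul, zero_add] at h7
  have h8 : Real.cos (((2 * k : ℕ) : ℝ) * θ) = 1 := by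
    have : Real.cos (((2 * k : ℕ) : ℝ) * θ) * Real.sin θ = 1 * Real.sin θ := by rw [one_mul, ← h7]
    exact mul_right_cancel₀ hs.ne' this
  have h9 := (Real.cos_eq_one_iff_of_lt_of_lt ?_ ?_).mp h8
  · have : (0 : ℝ) < ((2 * k : ℕ) : ℝ) * θ := by
      have hm' : (0 : ℝ) < (M i j : ℝ) := by exact_mod_cast Nat.pos_of_ne_zero hm
      have : (0 : ℝ) < θ := div_pos Real.pi_pos hm'
      have : (0 : ℝ) < ((2 * k : ℕ) : ℝ) := by exact_mod_cast (by omega : 0 < 2 * k)
      positivity
    linarith
  · have hm' : (0 : ℝ) < (M i j : ℝ) := by exact_mod_cast Nat.pos_of_ne_zero hm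
    have h1 : (0 : ℝ) < θ := div_pos Real.pi_pos hm'
    have h2 : (0 : ℝ) ≤ ((2 * k : ℕ) : ℝ) := by positivity
    have := Real.pi_pos
    nlinarith [mul_nonneg h2 h1.le]
  · have hm' : (0 : ℝ) < (M i j : ℝ) := by exact_mod_cast Nat.pos_of_ne_zero hm
    have hk' : (k : ℝ) < (M i j : ℝ) := by exact_mod_cast hk
    rw [hθ]
    push_cast
    rw [mul_div_assoc', div_lt_iff₀ hm']
    nlinarith [Real.pi_pos]

end roots

end Pool.Agent.L7h63.CoxExt
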