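import Pool.Agent.L7h63.CoxExt.Sum

set_option autoImplicit false
set_option linter.unusedSectionVars false

open CoxeterSystem Pool.Agent.Helper703.Cox Pool.Agent.TH5.BD

namespace Pool.Agent.L7h63.CoxExt

variable {B : Type*} {M : CoxeterMatrix B} [Fintype B] [DecidableEq B]
variable {W : Type*} [Group W] (cs : CoxeterSystem M W)

lemma pow_form {i j : B} (n : ℕ) : ∃ u ∈ Par cs {i, j}, ∃ s, (s = i ∨ s = j) ∧
    (cs.simple j * cs.simple i) ^ n * cs.simple j = u * cs.simple s * u⁻¹ := by
  have hi : cs.simple i ∈ Par cs {i, j} := simple_mem_par (by simp)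
  have hj : cs.simple j ∈ Par cs {i, j} := simple_mem_par (by simp)
  have hx : cs.simple j * cs.simple i ∈ Par cs {i, j} := Subgroup.mul_mem _ hj hi
  have hinv : ∀ l : ℕ, cs.simple j * ((cs.simple j * cs.simple i) ^ l)⁻¹ =
      (cs.simple j * cs.simple i) ^ l * cs.simple j := by
    intro l
    have h : MulAut.conj (cs.simple j) ((cs.simple j * cs.simple i) ^ l) =
        ((cs.simple j * cs.simple i) ^ l)⁻¹ := by
      rw [map_pow, MulAut.conj_apply]
      have : cs.simple j * (cs.simple j * cs.simple i) * (cs.simple j)⁻¹ =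
          (cs.simple j * cs.simple i)⁻¹ := by
        rw [mul_inv_rev, cs.inv_simple, cs.inv_simple, cs.simple_mul_simple_cancel_left]
      rw [this, inv_pow]
    rw [← h, MulAut.conj_apply, cs.inv_simple]
    rw [← mul_assoc, ← mul_assoc, cs.simple_mul_simple_self, one_mul]
  rcases Nat.even_or_odd' n with ⟨l, rfl | rfl⟩
  · refine ⟨(cs.simple j * cs.simple i) ^ l, Subgroup.pow_mem _ hx l, j, Or.inr rfl, ?_⟩
    rw [mul_assoc, hinv, ← mul_assoc, ← pow_add, two_mul]
  · refine ⟨(cs.simple j * cs.simple i) ^ l * cs.simple j,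
      Subgroup.mul_mem _ (Subgroup.pow_mem _ hx l) hj, i, Or.inl rfl, ?_⟩
    rw [mul_inv_rev, cs.inv_simple]
    calc (cs.simple j * cs.simple i) ^ (2 * l + 1) * cs.simple j
        = (cs.simple j * cs.simple i) ^ l * (cs.simple j * cs.simple i) *
            ((cs.simple j * cs.simple i) ^ l * cs.simple j) := by
          rw [← pow_succ, ← mul_assoc, ← pow_add]; congr 2; ring
      _ = (cs.simple j * cs.simple i) ^ l * (cs.simple j * cs.simple i) *
            (cs.simple j * ((cs.simple j * cs.simple i) ^ l)⁻¹) := by rw [hinv]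
      _ = _ := by group

lemma rho_form (h : W) {i j : B} {m : ℕ} (k : ZMod m) : ∃ u ∈ Par cs {i, j}, ∃ s,
    (s = i ∨ s = j) ∧ rho cs h i j k = (h * u) * cs.simple s * (h * u)⁻¹ := by
  obtain ⟨u, hu, s, hs, e⟩ := pow_form cs (i := i) (j := j) k.val
  refine ⟨u, hu, s, hs, ?_⟩
  unfold rho Z
  rw [mul_assoc h, e]
  group

lemma rho_inj (h : W) {i j : B} (hij : i ≠ j) [NeZero (M i j)] {k l : ZMod (M i j)}
    (e : rho cs h i j k = rho cs h i j l) : k = l := by
  unfold rho at e
  have e1 : Z (cs.simple j * cs.simple i) k = Z (cs.simple j * cs.simple i) l := by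
    have := mul_right_cancel e
    have := mul_right_cancel this
    exact mul_left_cancel this
  unfold Z at e1
  have key : ∀ a b : ℕ, a < b → b < M i j →
      (cs.simple j * cs.simple i) ^ a ≠ (cs.simple j * cs.simple i) ^ b := by
    intro a b hab hb he
    obtain ⟨d, rfl⟩ := Nat.exists_eq_add_of_lt hab
    rw [add_assoc, pow_add] at he
    have h1 : (cs.simple j * cs.simple i) ^ (d + 1) = 1 := by
      have := he.symm
      rwa [mul_eq_left] at this
    refine pow_ne_one cs hij.symm (k := d + 1) (by omega) ?_ h1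
    rw [M.symmetric]; omega
  have hk := ZMod.val_lt k
  have hl := ZMod.val_lt l
  rcases lt_trichotomy k.val l.val with h1 | h1 | h1
  · exact absurd e1 (key _ _ h1 hl)
  · exact ZMod.val_injective _ h1
  · exact absurd e1.symm (key _ _ h1 hk)

lemma rho_zero (h : W) (i j : B) {m : ℕ} : rho cs h i j (0 : ZMod m) = h * cs.simple j * h⁻¹ := by
  unfold rho Z
  simp

lemma rho_neg_one (h : W) {i j : B} {m : ℕ} [NeZero m]
    (hm : (cs.simple j * cs.simple i) ^ m = 1) :
    rho cs h i j (-1 : ZMod m) = h * cs.simple i * h⁻¹ := by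
  unfold rho
  have : (-1 : ZMod m) = ((-1 : ℤ) : ZMod m) := by push_cast; rfl
  rw [this, Z_int hm, zpow_neg_one, mul_inv_rev, cs.inv_simple, cs.inv_simple]
  rw [mul_assoc h, cs.simple_mul_simple_cancel_right]

lemma pow_swap {i j : B} : (cs.simple j * cs.simple i) ^ (M i j) = 1 := by
  rw [M.symmetric]
  exact cs.simple_mul_simple_pow j i

/-- **Key fact**: the sum over a rank two parabolic subgroup is the value of the sign choice. -/
theorem SS_eq {c : B → B → ZMod 2} (hc : Inv cs c) (g : W) {i j : B} (hij : i ≠ j)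
    [NeZero (M i j)] : SS cs c g i j (M i j) = c i j := by
  obtain ⟨h, u, rfl, hmin, hu, _⟩ := exists_rdec (cs := cs) {i, j} _ g rfl
  have hi := hmin i (by simp)
  have hj := hmin j (by simp)
  have hm := pow_swap cs (i := i) (j := j)
  rw [SS_mul_par cs c h hm hu]
  have hM0 : M i j ≠ 0 := NeZero.ne _
  have h2 : 2 ≤ M i j := two_le_of_ne M hij hM0
  haveI : Fact (1 < M i j) := ⟨by omega⟩
  have hne : (-1 : ZMod (M i j)) ≠ 0 := by
    rw [neg_ne_zero]; exact one_ne_zero
  have hcan : Can cs (rho cs h i j (-1 : ZMod (M i j))) (rho cs h i j (0 : ZMod (M i j))) i j := by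
    refine ⟨hij, hM0, h, hi, hj, rho_neg_one cs h hm, rho_zero cs h i j⟩
  have huniq : ∀ k l : ZMod (M i j), ∀ a b, Can cs (rho cs h i j k) (rho cs h i j l) a b →
      (k = -1 ∧ l = 0) ∨ (k = 0 ∧ l = -1) := by
    intro k l a b hab
    obtain ⟨h1, _, h', h3, h4, h5, h6⟩ := hab
    obtain ⟨v, hv, s, hs, e⟩ := rho_form cs h (i := i) (j := j) k
    obtain ⟨v', hv', s', hs', e'⟩ := rho_form cs h (i := i) (j := j) l
    rcases canonical_unique cs hij hi hj hv hv' hs hs' h1 h3 h4 (by rw [← e, h5])
      (by rw [← e', h6]) with ⟨f1, f2⟩ | ⟨f1, f2⟩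
    · left
      constructor
      · apply rho_inj cs h hij
        rw [rho_neg_one cs h hm, h5, f1]
      · apply rho_inj cs h hij
        rw [rho_zero, h6, f2]
    · right
      constructor
      · apply rho_inj cs h hij
        rw [rho_zero, h5, f1]
      · apply rho_inj cs h hij
        rw [rho_neg_one cs h hm, h6, f2]
  unfold SS
  rw [Finset.sum_eq_add (-1 : ZMod (M i j)) 0 hne]
  · rw [Finset.sum_eq_single (0 : ZMod (M i j)), Finset.sum_eq_single (-1 : ZMod (M i j))]
    · refine D_add cs hc ?_ hcan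
      intro he
      exact hne (rho_inj cs h hij he)
    · intro l _ hl
      apply D_zero
      intro a b hab
      rcases huniq _ _ _ _ hab with ⟨f1, _⟩ | ⟨_, f2⟩
      · exact hne f1.symm
      · exact hl f2
    · intro hn; exact absurd (Finset.mem_univ _) hn
    · intro l _ hl
      apply D_zero
      intro a b hab
      rcases huniq _ _ _ _ hab with ⟨_, f2⟩ | ⟨f1, _⟩
      · exact hl f2
      · exact hne f1
    · intro hn; exact absurd (Finset.mem_univ _) hn
  · intro k _ hk
    refine Finset.sum_eq_zero fun l _ => ?_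
    apply D_zero
    intro a b hab
    rcases huniq _ _ _ _ hab with ⟨f1, _⟩ | ⟨f1, _⟩
    · exact hk.1 f1
    · exact hk.2 f1
  · intro hn; exact absurd (Finset.mem_univ _) hn
  · intro hn; exact absurd (Finset.mem_univ _) hn

/-! ### the action -/

/-- inversion cocycle -/
noncomputable def vv (g : W) : W →₀ ZMod 2 := (invc cs g).v

omit [Fintype B] [DecidableEq B] in
lemma vv_mul (g : W) (i : B) :
    vv cs (g * cs.simple i) = vv cs g + Finsupp.single (g * cs.simple i * g⁻¹) 1 := by
  unfold vv
  rw [map_mul, TExt.mul_v, invc_w, invc_simple, TExt.el_v, TExt.act_single]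

noncomputable def LL (c : B → B → ZMod 2) (g t : W) : ZMod 2 :=
  (vv cs g).sum (fun t' a => a * D cs c t t')

omit [Fintype B] [DecidableEq B] in
lemma LL_mul (c : B → B → ZMod 2) (g t : W) (i : B) :
    LL cs c (g * cs.simple i) t = LL cs c g t + D cs c t (g * cs.simple i * g⁻¹) := by
  classical
  unfold LL
  rw [vv_mul, Finsupp.sum_add_index', Finsupp.sum_single_index]
  · rw [one_mul]
  · rw [zero_mul]
  · intro a; rw [zero_mul]
  · intro a b1 b2; rw [add_mul]

/-- the generators of the action -/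
noncomputable def AA (c : B → B → ZMod 2) (i : B) (p : W × ZMod 2) : W × ZMod 2 :=
  (p.1 * cs.simple i, p.2 + LL cs c p.1 (p.1 * cs.simple i * p.1⁻¹))

omit [Fintype B] [DecidableEq B] in
lemma AA_AA (c : B → B → ZMod 2) (i : B) (p : W × ZMod 2) : AA cs c i (AA cs c i p) = p := by
  obtain ⟨g, e⟩ := p
  unfold AA
  have h1 : g * cs.simple i * cs.simple i = g := cs.simple_mul_simple_cancel_right i
  have h2 : g * cs.simple i * cs.simple i * (g * cs.simple i)⁻¹ = g * cs.simple i * g⁻¹ := by
    rw [h1, mul_inv_rev, cs.inv_simple]; group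
  simp only [h1, Prod.mk.injEq, true_and]
  rw [mul_inv_rev, cs.inv_simple, ← mul_assoc, LL_mul, D_self, add_zero, add_assoc,
    CharTwo.add_self_eq_zero, add_zero]

/-- the generators of the action, as permutations -/
noncomputable def AP (c : B → B → ZMod 2) (i : B) : Equiv.Perm (W × ZMod 2) :=
  ⟨AA cs c i, AA cs c i, AA_AA cs c i, AA_AA cs c i⟩

omit [Fintype B] [DecidableEq B] in
lemma AP_sq (c : B → B → ZMod 2) (i : B) : AP cs c i * AP cs c i = 1 := by
  ext1 p
  exact AA_AA cs c i p

/-- the central permutation -/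
def QP (W : Type*) : Equiv.Perm (W × ZMod 2) :=
  ⟨fun p => (p.1, p.2 + 1), fun p => (p.1, p.2 + 1),
    fun p => by ext1 <;> simp [add_assoc, CharTwo.add_self_eq_zero],
    fun p => by ext1 <;> simp [add_assoc, CharTwo.add_self_eq_zero]⟩

lemma QP_apply (p : W × ZMod 2) : QP W p = (p.1, p.2 + 1) := rfl

omit [Fintype B] [DecidableEq B] in
lemma AP_apply (c : B → B → ZMod 2) (i : B) (p : W × ZMod 2) :
    AP cs c i p = (p.1 * cs.simple i, p.2 + LL cs c p.1 (p.1 * cs.simple i * p.1⁻¹)) := rfl

omit [Fintype B] [DecidableEq B] in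
lemma QP_comm (c : B → B → ZMod 2) (i : B) : QP W * AP cs c i = AP cs c i * QP W := by
  ext1 p
  rw [Equiv.Perm.mul_apply, Equiv.Perm.mul_apply, QP_apply, AP_apply, AP_apply, QP_apply]
  ext1
  · rfl
  · simp only
    ring

lemma QP_sq : QP W * QP W = 1 := by
  ext1 p
  rw [Equiv.Perm.mul_apply, QP_apply, QP_apply, Equiv.Perm.one_apply]
  ext1
  · rfl
  · simp [add_assoc, CharTwo.add_self_eq_zero]

lemma QP_ne [Nonempty W] : QP W ≠ 1 := by
  intro h
  obtain ⟨w⟩ := ‹Nonempty W›
  have := congrArg (fun f : Equiv.Perm (W × ZMod 2) => (f (w, 0)).2) h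
  simp [QP_apply] at this

/-- the `n`-th reflection met on the path that starts at `g` -/
def rr (g : W) (i j : B) (n : ℕ) : W :=
  g * (cs.simple j * cs.simple i) ^ n * cs.simple j * g⁻¹

omit [Fintype B] [DecidableEq B] in
lemma LL_path (c : B → B → ZMod 2) (g t : W) (i j : B) (l : ℕ) :
    LL cs c (g * (cs.simple j * cs.simple i) ^ l) t =
      LL cs c g t + ∑ n ∈ Finset.range (2 * l), D cs c t (rr cs g i j n) ∧
    LL cs c (g * (cs.simple j * cs.simple i) ^ l * cs.simple j) t =
      LL cs c g t + ∑ n ∈ Finset.range (2 * l + 1), D cs c t (rr cs g i j n) := by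
  have hinv : ∀ l : ℕ, cs.simple j * ((cs.simple j * cs.simple i) ^ l)⁻¹ =
      (cs.simple j * cs.simple i) ^ l * cs.simple j := by
    intro l
    have h : MulAut.conj (cs.simple j) ((cs.simple j * cs.simple i) ^ l) =
        ((cs.simple j * cs.simple i) ^ l)⁻¹ := by
      rw [map_pow, MulAut.conj_apply]
      have : cs.simple j * (cs.simple j * cs.simple i) * (cs.simple j)⁻¹ =
          (cs.simple j * cs.simple i)⁻¹ := by
        rw [mul_inv_rev, cs.inv_simple, cs.inv_simple, cs.simple_mul_simple_cancel_left]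
      rw [this, inv_pow]
    rw [← h, MulAut.conj_apply, cs.inv_simple]
    rw [← mul_assoc, ← mul_assoc, cs.simple_mul_simple_self, one_mul]
  have r1 : ∀ l : ℕ, g * (cs.simple j * cs.simple i) ^ l * cs.simple j *
      (g * (cs.simple j * cs.simple i) ^ l)⁻¹ = rr cs g i j (2 * l) := by
    intro l
    unfold rr
    rw [mul_inv_rev]
    calc g * (cs.simple j * cs.simple i) ^ l * cs.simple j *
          (((cs.simple j * cs.simple i) ^ l)⁻¹ * g⁻¹)
        = g * (cs.simple j * cs.simple i) ^ l *
          (cs.simple j * ((cs.simple j * cs.simple i) ^ l)⁻¹) * g⁻¹ := by group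
      _ = g * ((cs.simple j * cs.simple i) ^ l * (cs.simple j * cs.simple i) ^ l) *
          cs.simple j * g⁻¹ := by rw [hinv]; group
      _ = _ := by rw [← pow_add, two_mul]
  have r2 : ∀ l : ℕ, g * (cs.simple j * cs.simple i) ^ l * cs.simple j * cs.simple i *
      (g * (cs.simple j * cs.simple i) ^ l * cs.simple j)⁻¹ = rr cs g i j (2 * l + 1) := by
    intro l
    unfold rr
    rw [mul_inv_rev, mul_inv_rev, cs.inv_simple]
    calc g * (cs.simple j * cs.simple i) ^ l * cs.simple j * cs.simple i *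
          (cs.simple j * (((cs.simple j * cs.simple i) ^ l)⁻¹ * g⁻¹))
        = g * ((cs.simple j * cs.simple i) ^ l * (cs.simple j * cs.simple i)) *
          (cs.simple j * ((cs.simple j * cs.simple i) ^ l)⁻¹) * g⁻¹ := by group
      _ = g * ((cs.simple j * cs.simple i) ^ l * (cs.simple j * cs.simple i) *
          (cs.simple j * cs.simple i) ^ l) * cs.simple j * g⁻¹ := by rw [hinv]; group
      _ = _ := by rw [← pow_succ, ← pow_add]; congr 4; ring
  induction l with
  | zero =>
    refine ⟨by simp, ?_⟩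
    have := LL_mul cs c g t j
    simpa [rr] using this
  | succ l ih =>
    have h1 : LL cs c (g * (cs.simple j * cs.simple i) ^ (l + 1)) t =
        LL cs c g t + ∑ n ∈ Finset.range (2 * (l + 1)), D cs c t (rr cs g i j n) := by
      rw [pow_succ, ← mul_assoc, ← mul_assoc, LL_mul, ih.2, r2,
        show 2 * (l + 1) = 2 * l + 1 + 1 by ring, Finset.sum_range_succ _ (2 * l + 1), add_assoc]
    refine ⟨h1, ?_⟩
    rw [LL_mul, h1, r1, Finset.sum_range_succ _ (2 * (l + 1)), add_assoc]

omit [Fintype B] [DecidableEq B] in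
lemma AP_pow (c : B → B → ZMod 2) (g : W) (e : ZMod 2) (i j : B) (k : ℕ) :
    ((AP cs c i * AP cs c j) ^ k) (g, e) = (g * (cs.simple j * cs.simple i) ^ k,
      e + ∑ n ∈ Finset.range (2 * k), (LL cs c g (rr cs g i j n) +
        ∑ l ∈ Finset.range n, D cs c (rr cs g i j n) (rr cs g i j l))) := by
  have hinv : ∀ l : ℕ, cs.simple j * ((cs.simple j * cs.simple i) ^ l)⁻¹ =
      (cs.simple j * cs.simple i) ^ l * cs.simple j := by
    intro l
    have h : MulAut.conj (cs.simple j) ((cs.simple j * cs.simple i) ^ l) =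
        ((cs.simple j * cs.simple i) ^ l)⁻¹ := by
      rw [map_pow, MulAut.conj_apply]
      have : cs.simple j * (cs.simple j * cs.simple i) * (cs.simple j)⁻¹ =
          (cs.simple j * cs.simple i)⁻¹ := by
        rw [mul_inv_rev, cs.inv_simple, cs.inv_simple, cs.simple_mul_simple_cancel_left]
      rw [this, inv_pow]
    rw [← h, MulAut.conj_apply, cs.inv_simple]
    rw [← mul_assoc, ← mul_assoc, cs.simple_mul_simple_self, one_mul]
  have r1 : ∀ l : ℕ, g * (cs.simple j * cs.simple i) ^ l * cs.simple j *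
      (g * (cs.simple j * cs.simple i) ^ l)⁻¹ = rr cs g i j (2 * l) := by
    intro l
    unfold rr
    rw [mul_inv_rev]
    calc g * (cs.simple j * cs.simple i) ^ l * cs.simple j *
          (((cs.simple j * cs.simple i) ^ l)⁻¹ * g⁻¹)
        = g * (cs.simple j * cs.simple i) ^ l *
          (cs.simple j * ((cs.simple j * cs.simple i) ^ l)⁻¹) * g⁻¹ := by group
      _ = g * ((cs.simple j * cs.simple i) ^ l * (cs.simple j * cs.simple i) ^ l) *
          cs.simple j * g⁻¹ := by rw [hinv]; group
      _ = _ := by rw [← pow_add, two_mul]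
  have r2 : ∀ l : ℕ, g * (cs.simple j * cs.simple i) ^ l * cs.simple j * cs.simple i *
      (g * (cs.simple j * cs.simple i) ^ l * cs.simple j)⁻¹ = rr cs g i j (2 * l + 1) := by
    intro l
    unfold rr
    rw [mul_inv_rev, mul_inv_rev, cs.inv_simple]
    calc g * (cs.simple j * cs.simple i) ^ l * cs.simple j * cs.simple i *
          (cs.simple j * (((cs.simple j * cs.simple i) ^ l)⁻¹ * g⁻¹))
        = g * ((cs.simple j * cs.simple i) ^ l * (cs.simple j * cs.simple i)) *
          (cs.simple j * ((cs.simple j * cs.simple i) ^ l)⁻¹) * g⁻¹ := by group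
      _ = g * ((cs.simple j * cs.simple i) ^ l * (cs.simple j * cs.simple i) *
          (cs.simple j * cs.simple i) ^ l) * cs.simple j * g⁻¹ := by rw [hinv]; group
      _ = _ := by rw [← pow_succ, ← pow_add]; congr 4; ring
  induction k with
  | zero => simp
  | succ k ih =>
    rw [pow_succ', Equiv.Perm.mul_apply, ih, Equiv.Perm.mul_apply, AP_apply, AP_apply]
    simp only
    rw [r2, r1, (LL_path cs c g _ i j k).1, (LL_path cs c g _ i j k).2]
    ext1
    · simp only
      rw [pow_succ]
      group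
    · simp only
      rw [show 2 * (k + 1) = 2 * k + 1 + 1 by ring]
      simp only [Finset.sum_range_succ]
      ring

/-- the sum over the whole polygon -/
lemma polygon {E : ℕ → ℕ → ZMod 2} {a : ℕ → ZMod 2} {m : ℕ} (ha : ∀ n, a (n + m) = a n)
    (hE1 : ∀ n l, E (n + m) l = E n l) (hE2 : ∀ n l, E n (l + m) = E n l) :
    ∑ n ∈ Finset.range (2 * m), (a n + ∑ l ∈ Finset.range n, E n l) =
      ∑ n ∈ Finset.range m, ∑ l ∈ Finset.range m, E n l := by
  rw [two_mul, Finset.sum_range_add]
  have h1 : ∑ x ∈ Finset.range m, (a (m + x) + ∑ l ∈ Finset.range (m + x), E (m + x) l) =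
      ∑ x ∈ Finset.range m, (a x + (∑ l ∈ Finset.range m, E x l + ∑ l ∈ Finset.range x, E x l)) := by
    refine Finset.sum_congr rfl fun x _ => ?_
    rw [add_comm m x, ha, add_comm x m, Finset.sum_range_add]
    congr 2
    · refine Finset.sum_congr rfl fun l _ => ?_
      rw [add_comm m x, hE1]
    · refine Finset.sum_congr rfl fun l _ => ?_
      rw [add_comm m x, hE1, add_comm m l, hE2]
  rw [h1, ← Finset.sum_add_distrib]
  refine Finset.sum_congr rfl fun x _ => ?_
  generalize a x = p
  generalize ∑ l ∈ Finset.range m, E x l = q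
  generalize ∑ l ∈ Finset.range x, E x l = r
  revert p q r
  decide

/-- the relations hold -/
theorem AP_rel {c : B → B → ZMod 2} (hc : Inv cs c) {i j : B} (hij : i ≠ j) (h0 : M i j ≠ 0) :
    (AP cs c i * AP cs c j) ^ (M i j) = if c i j = 0 then 1 else QP W := by
  haveI : NeZero (M i j) := ⟨h0⟩
  have hm := pow_swap cs (i := i) (j := j)
  ext1 ⟨g, e⟩
  rw [AP_pow]
  have hper : ∀ n, rr cs g i j (n + M i j) = rr cs g i j n := by
    intro n
    unfold rr
    rw [pow_add, hm, mul_one]
  rw [polygon (m := M i j) (a := fun n => LL cs c g (rr cs g i j n))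
    (E := fun n l => D cs c (rr cs g i j n) (rr cs g i j l))
    (fun n => by simp only [hper]) (fun n l => by simp only [hper])
    (fun n l => by simp only [hper])]
  have h1 : ∑ n ∈ Finset.range (M i j), ∑ l ∈ Finset.range (M i j),
      D cs c (rr cs g i j n) (rr cs g i j l) = c i j := by
    rw [← SS_eq cs hc g hij]
    unfold SS rho rr
    rw [← sum_Z (m := M i j) (cs.simple j * cs.simple i) (fun x => ∑ l ∈ Finset.range (M i j),
      D cs c (g * x * cs.simple j * g⁻¹)
        (g * (cs.simple j * cs.simple i) ^ l * cs.simple j * g⁻¹))]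
    refine Finset.sum_congr rfl fun k _ => ?_
    rw [← sum_Z (m := M i j) (cs.simple j * cs.simple i) (fun x =>
      D cs c (g * Z (cs.simple j * cs.simple i) k * cs.simple j * g⁻¹)
        (g * x * cs.simple j * g⁻¹))]
  rw [h1, hm, mul_one]
  split_ifs with hci
  · rw [hci, add_zero]; rfl
  · have : c i j = 1 := by
      revert hci
      generalize c i j = z
      revert z
      decide
    rw [this, QP_apply]

end Pool.Agent.L7h63.CoxExt
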