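import Pool.Agent.L7h63.CoxExt.Base

set_option autoImplicit false

open CoxeterSystem Pool.Agent.Helper703.Cox Pool.Agent.TH5.BD

namespace Pool.Agent.L7h63.CoxExt

/-! ### a power function on `ZMod m` -/

section zm

variable {G : Type*} [Group G]

/-- `x ^ k` for a residue `k` -/
def Z (x : G) {m : ℕ} (k : ZMod m) : G := x ^ k.val

lemma Z_int {x : G} {m : ℕ} [NeZero m] (hx : x ^ m = 1) (n : ℤ) : Z x (n : ZMod m) = x ^ n := by
  unfold Z
  have h : (((n : ZMod m)).val : ℤ) = n % m := ZMod.val_intCast n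
  rw [← zpow_natCast, h]
  conv_rhs => rw [← Int.emod_add_mul_ediv n m]
  rw [zpow_add, zpow_mul, zpow_natCast, hx, one_zpow, mul_one]

lemma Z_neg {x : G} {m : ℕ} [NeZero m] (hx : x ^ m = 1) (k : ZMod m) : Z x (-k) = (Z x k)⁻¹ := by
  obtain ⟨n, rfl⟩ := ZMod.intCast_surjective k
  have : (-(n : ZMod m)) = ((-n : ℤ) : ZMod m) := by push_cast; rfl
  rw [this, Z_int hx, Z_int hx, zpow_neg]

lemma Z_sub {x : G} {m : ℕ} [NeZero m] (hx : x ^ m = 1) (k : ZMod m) :
    Z x (-2 - k) = x ^ (-2 : ℤ) * (Z x k)⁻¹ := by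
  obtain ⟨n, rfl⟩ := ZMod.intCast_surjective k
  have : (-2 - (n : ZMod m)) = ((-2 - n : ℤ) : ZMod m) := by push_cast; rfl
  rw [this, Z_int hx, Z_int hx, zpow_sub]

lemma sum_Z {A : Type*} [AddCommMonoid A] {m : ℕ} [NeZero m] (x : G) (F : G → A) :
    ∑ k : ZMod m, F (Z x k) = ∑ k ∈ Finset.range m, F (x ^ k) := by
  refine Finset.sum_bij (fun k _ => k.val) ?_ ?_ ?_ ?_
  · intro k _; simpa using ZMod.val_lt k
  · intro k _ l _ h; exact ZMod.val_injective m h
  · intro k hk
    refine ⟨(k : ZMod m), Finset.mem_univ _, ?_⟩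
    exact ZMod.val_cast_of_lt (by simpa using hk)
  · intro k _; rfl

end zm

variable {B : Type*} {M : CoxeterMatrix B}
variable {W : Type*} [Group W] (cs : CoxeterSystem M W)

/-- `(t, t')` is the canonical pair of reflections of a finite rank two parabolic subgroup, of type
`(a, b)` -/
def Can (t t' : W) (a b : B) : Prop :=
  a ≠ b ∧ M a b ≠ 0 ∧ ∃ h : W, cs.length h < cs.length (h * cs.simple a) ∧
    cs.length h < cs.length (h * cs.simple b) ∧ t = h * cs.simple a * h⁻¹ ∧
    t' = h * cs.simple b * h⁻¹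

variable {cs} in
lemma Can.swap {t t' : W} {a b : B} (h : Can cs t t' a b) : Can cs t' t b a := by
  obtain ⟨h1, h2, g, h3, h4, h5, h6⟩ := h
  exact ⟨h1.symm, by rwa [M.symmetric], g, h4, h3, h6, h5⟩

/-- invariance of a sign choice (additive form) -/
structure Inv (c : B → B → ZMod 2) : Prop where
  conj : ∀ a b a' b', a ≠ b → M a b ≠ 0 → a' ≠ b' → M a' b' ≠ 0 →
    (∃ g : W, g * cs.simple a * g⁻¹ = cs.simple a' ∧ g * cs.simple b * g⁻¹ = cs.simple b') →
    c a b = c a' b'
  symm : ∀ a b, a ≠ b → M a b ≠ 0 → c a b = c b a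

variable {cs} in
lemma Inv.can {c : B → B → ZMod 2} (hc : Inv cs c) {t t' : W} {a b a' b' : B}
    (h : Can cs t t' a b) (h' : Can cs t t' a' b') : c a b = c a' b' := by
  obtain ⟨h1, h2, g, _, _, h5, h6⟩ := h
  obtain ⟨h1', h2', g', _, _, h5', h6'⟩ := h'
  refine hc.conj a b a' b' h1 h2 h1' h2' ⟨g'⁻¹ * g, ?_, ?_⟩
  · have : g * cs.simple a * g⁻¹ = g' * cs.simple a' * g'⁻¹ := by rw [← h5, h5']
    calc g'⁻¹ * g * cs.simple a * (g'⁻¹ * g)⁻¹ = g'⁻¹ * (g * cs.simple a * g⁻¹) * g' := by group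
      _ = cs.simple a' := by rw [this]; group
  · have : g * cs.simple b * g⁻¹ = g' * cs.simple b' * g'⁻¹ := by rw [← h6, h6']
    calc g'⁻¹ * g * cs.simple b * (g'⁻¹ * g)⁻¹ = g'⁻¹ * (g * cs.simple b * g⁻¹) * g' := by group
      _ = cs.simple b' := by rw [this]; group

open Classical in
/-- the function `δ` on ordered pairs of reflections -/
noncomputable def D (c : B → B → ZMod 2) (t t' : W) : ZMod 2 :=
  if hh : WellOrderingRel t t' ∧ ∃ p : B × B, Can cs t t' p.1 p.2 then
    c hh.2.choose.1 hh.2.choose.2 else 0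

lemma D_of_can {c : B → B → ZMod 2} (hc : Inv cs c) {t t' : W} {a b : B} (h : Can cs t t' a b)
    (hw : WellOrderingRel t t') : D cs c t t' = c a b := by
  classical
  unfold D
  have hh : WellOrderingRel t t' ∧ ∃ p : B × B, Can cs t t' p.1 p.2 := ⟨hw, (a, b), h⟩
  rw [dif_pos hh]
  exact hc.can hh.2.choose_spec h

lemma D_of_not {c : B → B → ZMod 2} {t t' : W} (hw : ¬ WellOrderingRel t t') :
    D cs c t t' = 0 := by
  classical
  unfold D
  rw [dif_neg]
  exact fun h => hw h.1

lemma D_self {c : B → B → ZMod 2} (t : W) : D cs c t t = 0 :=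
  D_of_not cs (irrefl t)

lemma D_zero {c : B → B → ZMod 2} {t t' : W} (hw : ∀ a b, ¬ Can cs t t' a b) :
    D cs c t t' = 0 := by
  classical
  unfold D
  rw [dif_neg]
  rintro ⟨_, p, hp⟩
  exact hw _ _ hp

lemma D_add {c : B → B → ZMod 2} (hc : Inv cs c) {t t' : W} (ht : t ≠ t') {a b : B}
    (h : Can cs t t' a b) : D cs c t t' + D cs c t' t = c a b := by
  rcases trichotomous_of WellOrderingRel t t' with h1 | h1 | h1
  · rw [D_of_can cs hc h h1, D_of_not cs (asymm h1), add_zero]
  · exact absurd h1 ht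
  · rw [D_of_can cs hc h.swap h1, D_of_not cs (asymm h1), zero_add]
    exact (hc.symm a b h.1 h.2.1).symm

/-! ### the sum over the pairs of reflections of a rank two parabolic subgroup -/

/-- the `k`-th reflection of `g W_{ij} g⁻¹` -/
def rho (g : W) (i j : B) {m : ℕ} (k : ZMod m) : W :=
  g * Z (cs.simple j * cs.simple i) k * cs.simple j * g⁻¹

noncomputable def SS (c : B → B → ZMod 2) (g : W) (i j : B) (m : ℕ) [NeZero m] : ZMod 2 :=
  ∑ k : ZMod m, ∑ l : ZMod m, D cs c (rho cs g i j k) (rho cs g i j l)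

lemma simple_mul_Z {i j : B} {m : ℕ} [NeZero m] (hm : (cs.simple j * cs.simple i) ^ m = 1)
    (k : ZMod m) : cs.simple j * Z (cs.simple j * cs.simple i) k =
      Z (cs.simple j * cs.simple i) (-k) * cs.simple j := by
  rw [Z_neg hm]
  obtain ⟨n, rfl⟩ := ZMod.intCast_surjective k
  rw [Z_int hm]
  have h : MulAut.conj (cs.simple j) ((cs.simple j * cs.simple i) ^ n) =
      ((cs.simple j * cs.simple i) ^ n)⁻¹ := by
    rw [map_zpow, MulAut.conj_apply]
    have : cs.simple j * (cs.simple j * cs.simple i) * (cs.simple j)⁻¹ =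
        (cs.simple j * cs.simple i)⁻¹ := by
      rw [mul_inv_rev, cs.inv_simple, cs.inv_simple, cs.simple_mul_simple_cancel_left]
    rw [this, inv_zpow]
  rw [MulAut.conj_apply, mul_inv_eq_iff_eq_mul] at h
  exact h

lemma rho_mul_j (g : W) {i j : B} {m : ℕ} [NeZero m]
    (hm : (cs.simple j * cs.simple i) ^ m = 1) (k : ZMod m) :
    rho cs (g * cs.simple j) i j k = rho cs g i j (-k) := by
  unfold rho
  rw [mul_inv_rev, cs.inv_simple]
  calc g * cs.simple j * Z (cs.simple j * cs.simple i) k * cs.simple j * (cs.simple j * g⁻¹)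
      = g * (cs.simple j * Z (cs.simple j * cs.simple i) k) * (cs.simple j * cs.simple j) * g⁻¹ := by
        group
    _ = g * Z (cs.simple j * cs.simple i) (-k) * cs.simple j * g⁻¹ := by
        rw [simple_mul_Z cs hm, cs.simple_mul_simple_self]; group

lemma rho_mul_i (g : W) {i j : B} {m : ℕ} [NeZero m]
    (hm : (cs.simple j * cs.simple i) ^ m = 1) (k : ZMod m) :
    rho cs (g * cs.simple i) i j k = rho cs g i j (-2 - k) := by
  unfold rho
  rw [Z_sub hm, mul_inv_rev, cs.inv_simple]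
  obtain ⟨n, rfl⟩ := ZMod.intCast_surjective k
  rw [Z_int hm]
  have h : MulAut.conj (cs.simple i) ((cs.simple j * cs.simple i) ^ n) =
      ((cs.simple j * cs.simple i) ^ n)⁻¹ := by
    rw [map_zpow, MulAut.conj_apply]
    have : cs.simple i * (cs.simple j * cs.simple i) * (cs.simple i)⁻¹ =
        (cs.simple j * cs.simple i)⁻¹ := by
      rw [mul_inv_rev, cs.inv_simple, cs.inv_simple]
      rw [mul_assoc, cs.simple_mul_simple_cancel_right]
    rw [this, inv_zpow]
  rw [MulAut.conj_apply, mul_inv_eq_iff_eq_mul] at h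
  have h2 : ((cs.simple j * cs.simple i) ^ n)⁻¹ * cs.simple i * cs.simple j * cs.simple i =
      (cs.simple j * cs.simple i) ^ (-2 : ℤ) * ((cs.simple j * cs.simple i) ^ n)⁻¹ * cs.simple j := by
    have e1 : cs.simple i * cs.simple j = (cs.simple j * cs.simple i)⁻¹ := by
      rw [mul_inv_rev, cs.inv_simple, cs.inv_simple]
    have e2 : cs.simple i = (cs.simple j * cs.simple i)⁻¹ * cs.simple j := by
      rw [mul_inv_rev, cs.inv_simple, cs.inv_simple, cs.simple_mul_simple_cancel_right]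
    calc ((cs.simple j * cs.simple i) ^ n)⁻¹ * cs.simple i * cs.simple j * cs.simple i
        = ((cs.simple j * cs.simple i) ^ n)⁻¹ * (cs.simple i * cs.simple j) * cs.simple i := by group
      _ = ((cs.simple j * cs.simple i) ^ n)⁻¹ * (cs.simple j * cs.simple i)⁻¹ *
            ((cs.simple j * cs.simple i)⁻¹ * cs.simple j) := by rw [← e2, e1]
      _ = _ := by
        generalize cs.simple j * cs.simple i = x
        have : x ^ (-2 : ℤ) * (x ^ n)⁻¹ = (x ^ n)⁻¹ * x⁻¹ * x⁻¹ := by
          rw [← zpow_neg, ← zpow_add, mul_assoc, ← zpow_neg_one, ← zpow_add, ← zpow_add]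
          congr 1
          ring
        rw [this]
        group
  calc g * cs.simple i * (cs.simple j * cs.simple i) ^ n * cs.simple j * (cs.simple i * g⁻¹)
      = g * ((cs.simple i * (cs.simple j * cs.simple i) ^ n) * cs.simple j * cs.simple i) * g⁻¹ := by
        group
    _ = g * (((cs.simple j * cs.simple i) ^ n)⁻¹ * cs.simple i * cs.simple j * cs.simple i) * g⁻¹ := by
        rw [h]
    _ = _ := by rw [h2]; group

lemma SS_mul_j (c : B → B → ZMod 2) (g : W) {i j : B} {m : ℕ} [NeZero m]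
    (hm : (cs.simple j * cs.simple i) ^ m = 1) :
    SS cs c (g * cs.simple j) i j m = SS cs c g i j m := by
  unfold SS
  simp_rw [rho_mul_j cs g hm]
  rw [← Equiv.sum_comp (Equiv.neg (ZMod m))]
  refine Finset.sum_congr rfl fun k _ => ?_
  rw [← Equiv.sum_comp (Equiv.neg (ZMod m))]
  simp

lemma SS_mul_i (c : B → B → ZMod 2) (g : W) {i j : B} {m : ℕ} [NeZero m]
    (hm : (cs.simple j * cs.simple i) ^ m = 1) :
    SS cs c (g * cs.simple i) i j m = SS cs c g i j m := by
  unfold SS
  simp_rw [rho_mul_i cs g hm]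
  rw [← Equiv.sum_comp (Equiv.subLeft (-2 : ZMod m))]
  refine Finset.sum_congr rfl fun k _ => ?_
  rw [← Equiv.sum_comp (Equiv.subLeft (-2 : ZMod m))]
  simp

lemma SS_mul_par (c : B → B → ZMod 2) (g : W) {i j : B} {m : ℕ} [NeZero m]
    (hm : (cs.simple j * cs.simple i) ^ m = 1) {u : W} (hu : u ∈ Par cs {i, j}) :
    SS cs c (g * u) i j m = SS cs c g i j m := by
  unfold Par at hu
  have key : ∀ x ∈ Subgroup.closure (cs.simple '' {i, j}), ∀ g : W,
      SS cs c (g * x) i j m = SS cs c g i j m := by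
    intro x hx
    induction hx using Subgroup.closure_induction with
    | mem x hx =>
      intro g
      obtain ⟨k, hk, rfl⟩ := hx
      rcases hk with rfl | hk
      · exact SS_mul_i cs c g hm
      · rw [Set.mem_singleton_iff] at hk
        subst hk
        exact SS_mul_j cs c g hm
    | one => intro g; rw [mul_one]
    | mul x y _ _ hx hy => intro g; rw [← mul_assoc, hy, hx]
    | inv x _ hx =>
      intro g
      have := hx (g * x⁻¹)
      rw [inv_mul_cancel_right] at this
      exact this.symm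
  exact key u hu g

end Pool.Agent.L7h63.CoxExt
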